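import Mathlib
import Pool.Agent.H710R2.DP.Defs
import Pool.Agent.H710R2.DP.Defs2
import Pool.Agent.H710R2.DP.Tasks

open scoped ComplexOrder InnerProductSpace ComplexConjugate
open Finset

noncomputable section

namespace H710R2.DP

open H759R2.Kad

theorem dp_ulim : Z_ulim := by
  intro H _ _ _ I U T d hT
  have : Nonempty I := Filter.nonempty_of_neBot (U : Filter I)
  have hd : 0 ≤ d := (norm_nonneg _).trans (hT (Classical.arbitrary I))
  have hb : ∀ (i : I) (ξ η : H), ‖⟪η, T i ξ⟫_ℂ‖ ≤ d * ‖η‖ * ‖ξ‖ := by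
    intro i ξ η
    calc ‖⟪η, T i ξ⟫_ℂ‖ ≤ ‖η‖ * ‖T i ξ‖ := norm_inner_le_norm _ _
      _ ≤ ‖η‖ * (‖T i‖ * ‖ξ‖) := by
          gcongr
          exact (T i).le_opNorm ξ
      _ ≤ ‖η‖ * (d * ‖ξ‖) := by
          gcongr
          exact hT i
      _ = d * ‖η‖ * ‖ξ‖ := by ring
  have hex : ∀ ξ η : H, ∃ b : ℂ, ‖b‖ ≤ d * ‖η‖ * ‖ξ‖ ∧
      Filter.Tendsto (fun i => ⟪η, T i ξ⟫_ℂ) U (nhds b) := by
    intro ξ η
    obtain ⟨b, hb1, hb2⟩ := (isCompact_closedBall (0 : ℂ) (d * ‖η‖ * ‖ξ‖)).ultrafilter_le_nhds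
      (U.map (fun i => ⟪η, T i ξ⟫_ℂ)) (by
        rw [Filter.le_principal_iff, Ultrafilter.coe_map, Filter.mem_map]
        refine Filter.Eventually.of_forall fun i => ?_
        exact mem_closedBall_zero_iff.2 (hb i ξ η))
    exact ⟨b, mem_closedBall_zero_iff.1 hb1, hb2⟩
  choose B hBn hBl using hex
  have hU : Filter.NeBot (U : Filter I) := U.neBot
  have hadd_r : ∀ ξ ξ' η, B (ξ + ξ') η = B ξ η + B ξ' η := by
    intro ξ ξ' η
    refine tendsto_nhds_unique (hBl (ξ + ξ') η) (((hBl ξ η).add (hBl ξ' η)).congr fun i => ?_)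
    rw [map_add, inner_add_right]
  have hsmul_r : ∀ (c : ℂ) ξ η, B (c • ξ) η = c * B ξ η := by
    intro c ξ η
    refine tendsto_nhds_unique (hBl (c • ξ) η) (((hBl ξ η).const_mul c).congr fun i => ?_)
    rw [map_smul, inner_smul_right]
  have hadd_l : ∀ ξ η η', B ξ (η + η') = B ξ η + B ξ η' := by
    intro ξ η η'
    refine tendsto_nhds_unique (hBl ξ (η + η')) (((hBl ξ η).add (hBl ξ η')).congr fun i => ?_)
    rw [inner_add_left]
  have hsmul_l : ∀ (c : ℂ) ξ η, B ξ (c • η) = conj c * B ξ η := by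
    intro c ξ η
    refine tendsto_nhds_unique (hBl ξ (c • η)) (((hBl ξ η).const_mul (conj c)).congr fun i => ?_)
    rw [inner_smul_left]
  let ℓ : H → (H →L[ℂ] ℂ) := fun ξ => LinearMap.mkContinuous
    { toFun := fun η => conj (B ξ η)
      map_add' := fun η η' => by rw [hadd_l, map_add]
      map_smul' := fun c η => by
        rw [hsmul_l, map_mul, Complex.conj_conj, RingHom.id_apply, smul_eq_mul] }
    (d * ‖ξ‖) (fun η => by
      show ‖conj (B ξ η)‖ ≤ d * ‖ξ‖ * ‖η‖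
      rw [RCLike.norm_conj]
      calc ‖B ξ η‖ ≤ d * ‖η‖ * ‖ξ‖ := hBn ξ η
        _ = d * ‖ξ‖ * ‖η‖ := by ring)
  have hℓ : ∀ ξ η, ℓ ξ η = conj (B ξ η) := fun _ _ => rfl
  let S0 : H → H := fun ξ => (InnerProductSpace.toDual ℂ H).symm (ℓ ξ)
  have hS0 : ∀ ξ η, ⟪η, S0 ξ⟫_ℂ = B ξ η := by
    intro ξ η
    rw [← inner_conj_symm, InnerProductSpace.toDual_symm_apply, hℓ, Complex.conj_conj]
  have hS0n : ∀ ξ, ‖S0 ξ‖ ≤ d * ‖ξ‖ := by
    intro ξ
    show ‖(InnerProductSpace.toDual ℂ H).symm (ℓ ξ)‖ ≤ _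
    rw [LinearIsometryEquiv.norm_map]
    exact LinearMap.mkContinuous_norm_le _ (by positivity) _
  let S : H →L[ℂ] H := LinearMap.mkContinuous
    { toFun := S0
      map_add' := fun ξ ξ' => by
        refine ext_inner_left ℂ fun η => ?_
        rw [inner_add_right, hS0, hS0, hS0, hadd_r]
      map_smul' := fun c ξ => by
        refine ext_inner_left ℂ fun η => ?_
        rw [RingHom.id_apply, inner_smul_right, hS0, hS0, hsmul_r] } d hS0n
  refine ⟨S, LinearMap.mkContinuous_norm_le _ hd _, fun ξ η => ?_⟩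
  have h1 : ⟪η, S ξ⟫_ℂ = B ξ η := hS0 ξ η
  rw [h1]
  exact hBl ξ η

end H710R2.DP
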